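import Pool.Agent.H32.SSE.Chain

open Matrix

namespace Pool.Agent.H32.SSE

variable {κ : Type} [Fintype κ] [DecidableEq κ]

/-- The block matrix `[[T, Z], [0, w]]`. -/
abbrev M (T : Matrix κ κ ℕ) (Z : Matrix κ Unit ℕ) (w : ℕ) : Matrix (κ ⊕ Unit) (κ ⊕ Unit) ℕ :=
  fromBlocks T Z 0 (w • (1 : Matrix Unit Unit ℕ))

theorem extU {A B : Matrix κ Unit ℕ} (h : ∀ p, A p () = B p ()) : A = B := by
  ext p u
  exact h p

theorem Ch.lift {T T' R S : Matrix κ κ ℕ} {k : ℕ} (h : Ch T T' R S k) (Y : Matrix κ Unit ℕ)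
    (W : Matrix Unit Unit ℕ) :
    ∃ X : Matrix κ Unit ℕ, Ch (fromBlocks T Y 0 W) (fromBlocks T' (S * Y) 0 W)
      (fromBlocks R X 0 (W ^ k)) (fromBlocks S 0 0 1) k := by
  induction h with
  | refl =>
    refine ⟨0, ?_⟩
    have := Ch.refl (fromBlocks T Y 0 W)
    simpa using this
  | step P Q _ ih =>
    rename_i R S k _
    obtain ⟨X, hX⟩ := ih
    have e1 : fromBlocks (P * Q) (S * Y) 0 W =
        fromBlocks P (S * Y) 0 W * fromBlocks Q 0 0 (1 : Matrix Unit Unit ℕ) := by
      rw [fromBlocks_multiply]; simp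
    rw [e1] at hX
    refine ⟨R * (S * Y) + X * W, ?_⟩
    have := Ch.step _ _ hX
    simp only [fromBlocks_multiply] at this
    simpa [pow_succ, Matrix.mul_assoc] using this

theorem smul_one_mul_unit (a b : ℕ) : (a • (1 : Matrix Unit Unit ℕ)) * (b • (1 : Matrix Unit Unit ℕ))
    = (a * b) • (1 : Matrix Unit Unit ℕ) := by
  simp [mul_smul]

theorem pow_unit (a k : ℕ) : (a • (1 : Matrix Unit Unit ℕ)) ^ k = (a ^ k) • (1 : Matrix Unit Unit ℕ) := by
  rw [smul_pow, one_pow]

/-- multiplying the connecting column by a divisor of `w` -/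
theorem scale_one (T : Matrix κ κ ℕ) (Z : Matrix κ Unit ℕ) {w d : ℕ} (hd : d ∣ w) :
    ∃ S, Ch (M T Z w) (M T (d • Z) w) (fromBlocks 1 0 0 (d • 1)) S 1 := by
  obtain ⟨c, rfl⟩ := hd
  refine ⟨fromBlocks T Z 0 (c • (1 : Matrix Unit Unit ℕ)), Ch.one' ?_ ?_⟩
  · simp only [fromBlocks_multiply, Matrix.mul_smul, Matrix.smul_mul, Matrix.mul_one,
      Matrix.one_mul, Matrix.mul_zero, Matrix.zero_mul, add_zero, zero_add, smul_smul, smul_zero,
      Nat.mul_comm]
  · simp only [fromBlocks_multiply, Matrix.mul_smul, Matrix.smul_mul, Matrix.mul_one,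
      Matrix.one_mul, Matrix.mul_zero, Matrix.zero_mul, add_zero, zero_add, smul_smul, smul_zero,
      Nat.mul_comm]

theorem scale (T : Matrix κ κ ℕ) {w : ℕ} (N : ℕ) : ∀ (Z : Matrix κ Unit ℕ) {r : ℕ}, r ∣ w ^ N →
    ∃ S k, Ch (M T Z w) (M T (r • Z) w) (fromBlocks 1 0 0 (r • 1)) S k := by
  induction N with
  | zero =>
    intro Z r hr
    have hr1 : r = 1 := by simpa using hr
    subst hr1
    refine ⟨1, 0, ?_⟩
    have := Ch.refl (M T Z w)
    simpa using this
  | succ N ih =>
    intro Z r hr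
    rw [pow_succ] at hr
    obtain ⟨r1, r2, h1, h2, rfl⟩ := exists_dvd_and_dvd_of_dvd_mul hr
    obtain ⟨S, k, h⟩ := ih Z h1
    obtain ⟨S', h'⟩ := scale_one T (r1 • Z) h2
    refine ⟨S' * S, k + 1, ?_⟩
    have := h.trans h'
    rw [smul_smul, Nat.mul_comm r2 r1] at this
    refine this.castR ?_
    simp only [fromBlocks_multiply, Matrix.mul_smul, Matrix.smul_mul, Matrix.mul_one,
      Matrix.one_mul, Matrix.mul_zero, Matrix.zero_mul, add_zero, zero_add, smul_smul, smul_zero,
      Nat.mul_comm]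

theorem tshift (T : Matrix κ κ ℕ) (Z : Matrix κ Unit ℕ) (w : ℕ) (a : ℕ) :
    ∃ S k, Ch (M T (T ^ a * Z) w) (M T Z w) (fromBlocks (T ^ a) 0 0 1) S k := by
  induction a with
  | zero =>
    refine ⟨1, 0, ?_⟩
    have := Ch.refl (M T Z w)
    simpa using this
  | succ a ih =>
    obtain ⟨S, k, h⟩ := ih
    have h2 : Ch (M T (T ^ (a + 1) * Z) w) (M T (T ^ a * Z) w)
        (fromBlocks T 0 0 (1 : Matrix Unit Unit ℕ))
        (fromBlocks 1 (T ^ a * Z) 0 (w • (1 : Matrix Unit Unit ℕ))) 1 := by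
      refine Ch.one' ?_ ?_
      · simp only [fromBlocks_multiply, Matrix.mul_one, Matrix.one_mul, Matrix.mul_zero,
          Matrix.zero_mul, add_zero, zero_add, pow_succ', Matrix.mul_assoc]
      · simp only [fromBlocks_multiply, Matrix.mul_one, Matrix.one_mul, Matrix.mul_zero,
          Matrix.zero_mul, add_zero, zero_add]
    refine ⟨_, _, (h2.trans h).castR ?_⟩
    simp only [fromBlocks_multiply, Matrix.mul_one, Matrix.one_mul, Matrix.mul_zero,
          Matrix.zero_mul, add_zero, zero_add, pow_succ', Matrix.mul_assoc]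

/-- the basic move -/
theorem round (T : Matrix κ κ ℕ) {Z Z' σ : Matrix κ Unit ℕ} {w : ℕ}
    (h : Z + T * σ = Z' + w • σ) (hle : ∀ p, w * σ p () ≤ Z p ()) :
    ∃ S, Ch (M T Z w) (M T Z' w) (fromBlocks 1 σ 0 1) S 1 := by
  set X : Matrix κ Unit ℕ := fun p _ => Z p () - w * σ p () with hX
  have e1 : X + w • σ = Z := by
    refine extU fun p => ?_
    have := hle p
    simp only [hX, Matrix.add_apply, Matrix.smul_apply, smul_eq_mul]
    omega
  have e2 : T * σ + X = Z' := by
    have : Z' + w • σ = (T * σ + X) + w • σ := by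
      rw [← h, add_assoc, e1, add_comm]
    exact (add_right_cancel this).symm
  refine ⟨fromBlocks T X 0 (w • (1 : Matrix Unit Unit ℕ)), Ch.one' ?_ ?_⟩
  · simp only [fromBlocks_multiply, Matrix.mul_smul, Matrix.mul_one, Matrix.one_mul,
      Matrix.mul_zero, Matrix.zero_mul, add_zero, zero_add, e1]
  · simp only [fromBlocks_multiply, Matrix.mul_one, Matrix.mul_zero, Matrix.zero_mul, add_zero,
      zero_add, e2]

theorem U_mul (σ τ : Matrix κ Unit ℕ) :
    (fromBlocks (1 : Matrix κ κ ℕ) σ 0 (1 : Matrix Unit Unit ℕ)) * fromBlocks 1 τ 0 1 =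
      fromBlocks 1 (σ + τ) 0 1 := by
  rw [fromBlocks_multiply]; simp [add_comm]

theorem path_one {T : Matrix κ κ ℕ} (hT : ∀ p, T p p ≠ 0) (m : ℕ) :
    ∀ {Z Z' σ : Matrix κ Unit ℕ}, (∀ p, σ p () ≤ m) → Z + T * σ = Z' + σ →
      (∀ p, σ p () ≠ 0 → Z p () ≠ 0) →
      ∃ S k, Ch (M T Z 1) (M T Z' 1) (fromBlocks 1 σ 0 1) S k := by
  induction m with
  | zero =>
    intro Z Z' σ hm h _
    have hs : σ = 0 := by
      refine extU fun p => ?_
      have := hm p
      simpa using this
    subst hs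
    have : Z = Z' := by simpa using h
    subst this
    refine ⟨1, 0, ?_⟩
    have := Ch.refl (M T Z 1)
    simpa using this
  | succ m ih =>
    intro Z Z' σ hm h hs
    set χ : Matrix κ Unit ℕ := fun p _ => min (σ p ()) 1 with hχ
    set σ' : Matrix κ Unit ℕ := fun p _ => σ p () - min (σ p ()) 1 with hσ'
    have e0 : σ = χ + σ' := by
      refine extU fun p => ?_
      simp only [hχ, hσ', Matrix.add_apply]
      omega
    set Z1 : Matrix κ Unit ℕ := fun p _ => (Z p () - χ p ()) + (T * χ) p () with hZ1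
    have hle : ∀ p, χ p () ≤ Z p () := by
      intro p
      by_cases hp : σ p () = 0
      · simp [hχ, hp]
      · have := hs p hp
        simp only [hχ]
        omega
    have e1 : Z + T * χ = Z1 + χ := by
      refine extU fun p => ?_
      have := hle p
      simp only [hZ1, Matrix.add_apply]
      omega
    obtain ⟨S1, h1⟩ := round T (w := 1) (Z := Z) (Z' := Z1) (σ := χ) (by simpa using e1)
      (by simpa using hle)
    have e2 : Z1 + T * σ' = Z' + σ' := by
      have : (Z1 + T * σ') + χ = (Z' + σ') + χ := by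
        calc (Z1 + T * σ') + χ = (Z1 + χ) + T * σ' := by abel
          _ = Z + (T * χ + T * σ') := by rw [← e1]; abel
          _ = Z + T * σ := by rw [← Matrix.mul_add, ← e0]
          _ = Z' + σ := h
          _ = (Z' + σ') + χ := by rw [e0]; abel
      exact add_right_cancel this
    have hs1 : ∀ p, σ' p () ≠ 0 → Z1 p () ≠ 0 := by
      intro p hp
      have hc : χ p () = 1 := by
        simp only [hσ'] at hp
        simp only [hχ]
        omega
      have : 1 ≤ (T * χ) p () := by
        rw [Matrix.mul_apply]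
        have h2 : T p p * χ p () ≤ ∑ j, T p j * χ j () :=
          Finset.single_le_sum (f := fun j => T p j * χ j ()) (fun _ _ => Nat.zero_le _)
            (Finset.mem_univ p)
        have h3 : 1 ≤ T p p * χ p () := by
          rw [hc, mul_one]
          exact Nat.one_le_iff_ne_zero.mpr (hT p)
        exact h3.trans h2
      simp only [hZ1]
      omega
    obtain ⟨S2, k2, h2⟩ := ih (Z := Z1) (Z' := Z') (σ := σ')
      (by
        intro p
        have := hm p
        simp only [hσ']
        omega) e2 hs1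
    refine ⟨S2 * S1, 1 + k2, ?_⟩
    have := h1.trans h2
    rw [U_mul, ← e0] at this
    exact this

theorem path_two {T : Matrix κ κ ℕ} {w : ℕ} (hw : 2 ≤ w)
    {Z Z' σ : Matrix κ Unit ℕ} (h : Z + T * σ = Z' + w • σ)
    (hs : ∀ p, σ p () ≠ 0 → Z p () ≠ 0 ∧ Z' p () ≠ 0) :
    Real (M T Z w) (M T Z' w) (fromBlocks 1 σ 0 1) := by
  set b : ℕ := ∑ p, w * σ p () with hb
  set m : ℕ := w ^ b with hm
  have hbm : ∀ p, w * σ p () ≤ m := by
    intro p
    have h1 : w * σ p () ≤ b :=
      Finset.single_le_sum (f := fun j => w * σ j ()) (fun _ _ => Nat.zero_le _) (Finset.mem_univ p)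
    have h2 : b ≤ w ^ b := (Nat.lt_pow_self (by omega)).le
    exact h1.trans h2
  have key : ∀ t, t ≤ m → ∃ S, Ch (M T (m • Z) w) (M T ((m - t) • Z + t • Z') w)
      (fromBlocks 1 (t • σ) 0 1) S t := by
    intro t
    induction t with
    | zero =>
      intro _
      refine ⟨1, ?_⟩
      have := Ch.refl (M T (m • Z) w)
      simpa using this
    | succ t ih =>
      intro ht
      obtain ⟨S, hS⟩ := ih (by omega)
      have e : ((m - t) • Z + t • Z') + T * σ = ((m - (t + 1)) • Z + (t + 1) • Z') + w • σ := by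
        have h1 : m - t = (m - (t + 1)) + 1 := by omega
        rw [h1, add_smul, add_smul, one_smul, one_smul]
        calc ((m - (t + 1)) • Z + Z + t • Z') + T * σ
            = (m - (t + 1)) • Z + t • Z' + (Z + T * σ) := by abel
          _ = (m - (t + 1)) • Z + t • Z' + (Z' + w • σ) := by rw [h]
          _ = _ := by abel
      have hle : ∀ p, w * σ p () ≤ ((m - t) • Z + t • Z') p () := by
        intro p
        by_cases hp : σ p () = 0
        · simp [hp]
        · obtain ⟨h1, h2⟩ := hs p hp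
          have h3 := hbm p
          simp only [Matrix.add_apply, Matrix.smul_apply, smul_eq_mul]
          have h4 : m - t ≤ (m - t) * Z p () := Nat.le_mul_of_pos_right _ (Nat.pos_of_ne_zero h1)
          have h5 : t ≤ t * Z' p () := Nat.le_mul_of_pos_right _ (Nat.pos_of_ne_zero h2)
          omega
      obtain ⟨S', hS'⟩ := round T e hle
      refine ⟨S' * S, ?_⟩
      have := hS.trans hS'
      rw [U_mul] at this
      simpa [add_smul] using this
  obtain ⟨S, hS⟩ := key m le_rfl
  obtain ⟨S1, k1, h1⟩ := scale T (w := w) b Z (r := m) dvd_rfl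
  obtain ⟨S2, k2, h2⟩ := scale T (w := w) b Z' (r := m) dvd_rfl
  have hS' : Ch (M T (m • Z) w) (M T (m • Z') w) (fromBlocks 1 (m • σ) 0 1) S m := by
    simpa using hS
  refine Real.post h2 ?_
  have h3 := h1.trans hS'
  have e : (fromBlocks (1 : Matrix κ κ ℕ) 0 0 (m • (1 : Matrix Unit Unit ℕ))) *
      fromBlocks 1 (m • σ) 0 1 =
      fromBlocks 1 σ 0 1 * fromBlocks (1 : Matrix κ κ ℕ) 0 0 (m • (1 : Matrix Unit Unit ℕ)) := by
    simp only [fromBlocks_multiply, Matrix.mul_smul, Matrix.smul_mul, Matrix.mul_one,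
      Matrix.one_mul, Matrix.mul_zero, Matrix.zero_mul, add_zero, zero_add, smul_zero]
  rw [e] at h3
  exact h3.real

end Pool.Agent.H32.SSE
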