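import Mathlib

open Matrix

namespace Pool.Agent.H32.SSE

section Chains

variable {α : Type} [Fintype α] [DecidableEq α]

/-- `Ch A B R S k`: there is a chain of `k` elementary strong shift equivalences over `ℕ` from `A` to
`B`, all matrices being indexed by `α`; `R` and `S` are the products of the matrices of the chain. -/
inductive Ch {α : Type} [Fintype α] [DecidableEq α] :
    Matrix α α ℕ → Matrix α α ℕ → Matrix α α ℕ → Matrix α α ℕ → ℕ → Prop
  | refl (A : Matrix α α ℕ) : Ch A A 1 1 0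
  | step {A R S : Matrix α α ℕ} {k : ℕ} (P Q : Matrix α α ℕ) :
      Ch A (P * Q) R S k → Ch A (Q * P) (R * P) (Q * S) (k + 1)

theorem mul_pow_mul' (P Q : Matrix α α ℕ) (k : ℕ) : Q * (P * Q) ^ k * P = (Q * P) ^ (k + 1) := by
  induction k with
  | zero => simp
  | succ k ih =>
    rw [pow_succ (P * Q) k, pow_succ (Q * P) (k + 1), ← ih]
    simp only [Matrix.mul_assoc]

theorem Ch.props {A B R S : Matrix α α ℕ} {k : ℕ} (h : Ch A B R S k) :
    R * S = A ^ k ∧ S * R = B ^ k ∧ A * R = R * B ∧ B * S = S * A := by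
  induction h with
  | refl => simp
  | step P Q _ ih =>
    obtain ⟨h1, h2, h3, h4⟩ := ih
    rename_i k _
    refine ⟨?_, ?_, ?_, ?_⟩
    · rw [Matrix.mul_assoc, ← Matrix.mul_assoc P Q, ← Matrix.mul_assoc, ← h3, Matrix.mul_assoc, h1,
        pow_succ']
    · rw [Matrix.mul_assoc, ← Matrix.mul_assoc _ _ P, h2, ← Matrix.mul_assoc, mul_pow_mul']
    · rw [← Matrix.mul_assoc, h3]
      simp only [Matrix.mul_assoc]
    · rw [Matrix.mul_assoc, ← Matrix.mul_assoc P, h4, ← Matrix.mul_assoc]

theorem Ch.one (P Q : Matrix α α ℕ) : Ch (P * Q) (Q * P) P Q 1 := by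
  have h := Ch.step P Q (Ch.refl (P * Q))
  simpa using h

theorem Ch.one' {A B P Q : Matrix α α ℕ} (h1 : A = P * Q) (h2 : B = Q * P) : Ch A B P Q 1 := by
  subst h1 h2
  exact Ch.one P Q

theorem Ch.cast {A B R S R' S' : Matrix α α ℕ} {k k' : ℕ} (h : Ch A B R S k) (h1 : R = R')
    (h2 : S = S') (h3 : k = k') : Ch A B R' S' k' := by
  subst h1 h2 h3
  exact h

theorem Ch.castR {A B R S R' : Matrix α α ℕ} {k : ℕ} (h : Ch A B R S k) (h1 : R = R') :
    Ch A B R' S k := by
  subst h1
  exact h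

theorem Ch.trans {A B C R S R' S' : Matrix α α ℕ} {k k' : ℕ} (h : Ch A B R S k)
    (h' : Ch B C R' S' k') : Ch A C (R * R') (S' * S) (k + k') := by
  induction h' with
  | refl => simpa using h
  | step P Q _ ih =>
    have := Ch.step P Q ih
    simpa only [Matrix.mul_assoc, Nat.add_assoc] using this

theorem Ch.symm {A B R S : Matrix α α ℕ} {k : ℕ} (h : Ch A B R S k) : Ch B A S R k := by
  induction h with
  | refl => exact Ch.refl _
  | step P Q _ ih =>
    have := (Ch.one Q P).trans ih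
    rw [Nat.add_comm]
    exact this

theorem Ch.reindex {β : Type} [Fintype β] [DecidableEq β] (e : β ≃ α)
    {A B R S : Matrix α α ℕ} {k : ℕ} (h : Ch A B R S k) :
    Ch (A.submatrix e e) (B.submatrix e e) (R.submatrix e e) (S.submatrix e e) k := by
  induction h with
  | refl =>
    have := Ch.refl (A.submatrix e e)
    simpa using this
  | step P Q _ ih =>
    rw [← Matrix.submatrix_mul_equiv P Q e e e] at ih
    have := Ch.step _ _ ih
    simpa only [Matrix.submatrix_mul_equiv] using this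

/-- `R` is realised by a chain, up to powers of the matrix. -/
def Real (A B R : Matrix α α ℕ) : Prop :=
  ∃ (R0 S0 : Matrix α α ℕ) (k i j : ℕ), Ch A B R0 S0 k ∧ R0 * B ^ i = R * B ^ j

theorem Ch.real {A B R S : Matrix α α ℕ} {k : ℕ} (h : Ch A B R S k) : Real A B R :=
  ⟨R, S, k, 0, 0, h, rfl⟩

theorem comm_pow {A B R : Matrix α α ℕ} (h : A * R = R * B) (k : ℕ) : A ^ k * R = R * B ^ k := by
  induction k with
  | zero => simp
  | succ k ih => rw [pow_succ, Matrix.mul_assoc, h, ← Matrix.mul_assoc, ih, Matrix.mul_assoc, pow_succ]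

theorem Real.trans {A B C R R' : Matrix α α ℕ} (h1 : Real A B R) (h2 : Real B C R')
    (hc : B * R' = R' * C) : Real A C (R * R') := by
  obtain ⟨R0, S0, k, i, j, h, e⟩ := h1
  obtain ⟨R0', S0', k', i', j', h', e'⟩ := h2
  refine ⟨R0 * R0', S0' * S0, k + k', i + i', j + j', h.trans h', ?_⟩
  have hc0 := h'.props.2.2.1
  calc R0 * R0' * C ^ (i + i') = R0 * (R0' * C ^ i') * C ^ i := by
        rw [pow_add, ← pow_add, Nat.add_comm, pow_add]; simp only [Matrix.mul_assoc]
    _ = R0 * (R' * C ^ j') * C ^ i := by rw [e']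
    _ = R0 * (R' * C ^ i) * C ^ j' := by
        have : C ^ j' * C ^ i = C ^ i * C ^ j' := by rw [← pow_add, ← pow_add, Nat.add_comm]
        simp only [Matrix.mul_assoc, this]
    _ = (R0 * B ^ i) * R' * C ^ j' := by rw [← comm_pow hc i]; simp only [Matrix.mul_assoc]
    _ = R * (B ^ j * R') * C ^ j' := by rw [e]; simp only [Matrix.mul_assoc]
    _ = R * R' * C ^ (j + j') := by rw [comm_pow hc j, pow_add]; simp only [Matrix.mul_assoc]

theorem Real.of_pow {A B R : Matrix α α ℕ} {m : ℕ} (h : Real A B (R * B ^ m)) : Real A B R := by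
  obtain ⟨R0, S0, k, i, j, h, e⟩ := h
  exact ⟨R0, S0, k, i, m + j, h, by rw [e, pow_add, Matrix.mul_assoc]⟩

theorem Real.pre {A B C R D D' : Matrix α α ℕ} {k : ℕ} (h : Ch A C D D' k) (hR : A * R = R * B)
    (hQ : Real C B (D' * R)) : Real A B R := by
  obtain ⟨h1, h2, h3, h4⟩ := h.props
  have hc : C * (D' * R) = (D' * R) * B := by
    rw [← Matrix.mul_assoc, h4, Matrix.mul_assoc, hR, Matrix.mul_assoc]
  have := h.real.trans hQ hc
  rw [← Matrix.mul_assoc, h1, comm_pow hR] at this
  exact this.of_pow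

theorem Real.post {A B C R D D' : Matrix α α ℕ} {k : ℕ} (h : Ch B C D D' k)
    (hQ : Real A C (R * D)) : Real A B R := by
  obtain ⟨h1, h2, h3, h4⟩ := h.props
  have := hQ.trans h.symm.real h4
  rw [Matrix.mul_assoc, h1] at this
  exact this.of_pow

theorem Real.reindex {β : Type} [Fintype β] [DecidableEq β] (e : β ≃ α)
    {A B R : Matrix α α ℕ} (h : Real A B R) :
    Real (A.submatrix e e) (B.submatrix e e) (R.submatrix e e) := by
  obtain ⟨R0, S0, k, i, j, h, he⟩ := h
  refine ⟨_, _, k, i, j, h.reindex e, ?_⟩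
  have hp : ∀ m : ℕ, (B.submatrix e e) ^ m = (B ^ m).submatrix e e := by
    intro m
    induction m with
    | zero => simp
    | succ m ih => rw [pow_succ, ih, Matrix.submatrix_mul_equiv, pow_succ]
  rw [hp, hp, Matrix.submatrix_mul_equiv, Matrix.submatrix_mul_equiv, he]

end Chains

end Pool.Agent.H32.SSE
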