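import Pool.Agent.H32.SSE.Block

open Matrix

namespace Pool.Agent.H32.SSE

variable {κ : Type} [Fintype κ] [DecidableEq κ]

/-- `p` is connected to the last index. -/
def Cn (T : Matrix κ κ ℕ) (Z : Matrix κ Unit ℕ) (p : κ) : Prop := ∃ j : ℕ, (T ^ j * Z) p () ≠ 0

theorem Cn.up {T : Matrix κ κ ℕ} {Z : Matrix κ Unit ℕ} {p q : κ} (h : Cn T Z q)
    (hpq : T p q ≠ 0) : Cn T Z p := by
  obtain ⟨j, hj⟩ := h
  refine ⟨j + 1, ?_⟩
  rw [pow_succ', Matrix.mul_assoc, Matrix.mul_apply]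
  intro h0
  rw [Finset.sum_eq_zero_iff] at h0
  have := h0 q (Finset.mem_univ _)
  rcases Nat.mul_eq_zero.1 this with h1 | h1
  · exact hpq h1
  · exact hj h1

theorem exists_of_mul_ne {T : Matrix κ κ ℕ} {Z : Matrix κ Unit ℕ} {p : κ}
    (h : (T * Z) p () ≠ 0) : ∃ q, T p q ≠ 0 ∧ Z q () ≠ 0 := by
  rw [Matrix.mul_apply] at h
  by_contra hc
  push Not at hc
  apply h
  apply Finset.sum_eq_zero
  intro q _
  by_cases hq : T p q = 0
  · simp [hq]
  · simp [hc q hq]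

theorem Cn.up_mul {T : Matrix κ κ ℕ} {Z σ : Matrix κ Unit ℕ} (h : ∀ q, σ q () ≠ 0 → Cn T Z q)
    {p : κ} (hp : (T * σ) p () ≠ 0) : Cn T Z p := by
  obtain ⟨q, h1, h2⟩ := exists_of_mul_ne hp
  exact (h q h2).up h1

theorem Cn.up_pow {T : Matrix κ κ ℕ} {Z σ : Matrix κ Unit ℕ} (h : ∀ q, σ q () ≠ 0 → Cn T Z q)
    (k : ℕ) {p : κ} (hp : (T ^ k * σ) p () ≠ 0) : Cn T Z p := by
  induction k generalizing p with
  | zero => exact h p (by simpa using hp)
  | succ k ih =>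
    rw [pow_succ', Matrix.mul_assoc] at hp
    exact Cn.up_mul (fun q hq => ih hq) hp

theorem mono_pow {T : Matrix κ κ ℕ} (hT : ∀ p, T p p ≠ 0) (Z : Matrix κ Unit ℕ) (p : κ) :
    Z p () ≤ (T * Z) p () := by
  rw [Matrix.mul_apply]
  have h2 : T p p * Z p () ≤ ∑ j, T p j * Z j () :=
    Finset.single_le_sum (f := fun j => T p j * Z j ()) (fun _ _ => Nat.zero_le _)
      (Finset.mem_univ p)
  exact (Nat.le_mul_of_pos_left _ (Nat.pos_of_ne_zero (hT p))).trans h2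

theorem mono_pow' {T : Matrix κ κ ℕ} (hT : ∀ p, T p p ≠ 0) (Z : Matrix κ Unit ℕ) (p : κ)
    {j k : ℕ} (hjk : j ≤ k) : (T ^ j * Z) p () ≤ (T ^ k * Z) p () := by
  induction k, hjk using Nat.le_induction with
  | base => exact le_rfl
  | succ k _ ih =>
    rw [pow_succ', Matrix.mul_assoc]
    exact ih.trans (mono_pow hT _ p)

theorem exists_index {T : Matrix κ κ ℕ} (hT : ∀ p, T p p ≠ 0) (Z : Matrix κ Unit ℕ) :
    ∃ K : ℕ, ∀ k : ℕ, K ≤ k → ∀ p, Cn T Z p → (T ^ k * Z) p () ≠ 0 := by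
  classical
  have : ∀ p, ∃ K : ℕ, Cn T Z p → (T ^ K * Z) p () ≠ 0 := by
    intro p
    by_cases h : Cn T Z p
    · obtain ⟨j, hj⟩ := h
      exact ⟨j, fun _ => hj⟩
    · exact ⟨0, fun h' => absurd h' h⟩
  choose K hK using this
  refine ⟨∑ p, K p, fun k hk p hp => ?_⟩
  have h1 : K p ≤ ∑ p, K p :=
    Finset.single_le_sum (f := K) (fun _ _ => Nat.zero_le _) (Finset.mem_univ p)
  have h2 := mono_pow' hT Z p (h1.trans hk)
  have h3 := hK p hp
  omega

/-- the path lemma -/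
theorem path {T : Matrix κ κ ℕ} (hT : ∀ p, T p p ≠ 0) {w : ℕ} (hw : 1 ≤ w)
    {Z Z' σ : Matrix κ Unit ℕ} (h : Z + T * σ = Z' + w • σ)
    (hs : ∀ p, σ p () ≠ 0 → Cn T Z p ∧ Cn T Z' p) :
    Real (M T Z w) (M T Z' w) (fromBlocks 1 σ 0 1) := by
  obtain ⟨K1, hK1⟩ := exists_index hT Z
  obtain ⟨K2, hK2⟩ := exists_index hT Z'
  set K := max K1 K2 with hK
  have hstep : Real (M T (T ^ K * Z) w) (M T (T ^ K * Z') w) (fromBlocks 1 (T ^ K * σ) 0 1) := by
    have e : T ^ K * Z + T * (T ^ K * σ) = T ^ K * Z' + w • (T ^ K * σ) := by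
      have h1 : T * (T ^ K * σ) = T ^ K * (T * σ) := by
        rw [← Matrix.mul_assoc, ← Matrix.mul_assoc, ← pow_succ, ← pow_succ']
      rw [h1, ← Matrix.mul_add, h, Matrix.mul_add, Matrix.mul_smul]
    have hs' : ∀ p, (T ^ K * σ) p () ≠ 0 → (T ^ K * Z) p () ≠ 0 ∧ (T ^ K * Z') p () ≠ 0 := by
      intro p hp
      constructor
      · exact hK1 K (le_max_left _ _) p (Cn.up_pow (fun q hq => (hs q hq).1) K hp)
      · exact hK2 K (le_max_right _ _) p (Cn.up_pow (fun q hq => (hs q hq).2) K hp)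
    rcases Nat.lt_or_ge w 2 with hw2 | hw2
    · have hw1 : w = 1 := by omega
      subst hw1
      obtain ⟨S, k, hc⟩ := path_one hT (∑ p, (T ^ K * σ) p ()) (σ := T ^ K * σ)
        (fun p => Finset.single_le_sum (f := fun j => (T ^ K * σ) j ())
          (fun _ _ => Nat.zero_le _) (Finset.mem_univ p))
        (by simpa using e) (fun p hp => (hs' p hp).1)
      exact hc.real
    · exact path_two hw2 e hs'
  obtain ⟨S1, k1, h1⟩ := tshift T Z w K
  obtain ⟨S2, k2, h2⟩ := tshift T Z' w K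
  have hcomm : M T Z w * fromBlocks 1 σ 0 1 = fromBlocks 1 σ 0 1 * M T Z' w := by
    simp only [fromBlocks_multiply, Matrix.mul_smul, Matrix.smul_mul, Matrix.mul_one,
      Matrix.one_mul, Matrix.mul_zero, Matrix.zero_mul, add_zero, zero_add]
    rw [add_comm (T * σ), h]
  refine Real.pre h1.symm hcomm ?_
  have hc2 : M T (T ^ K * Z') w * fromBlocks (T ^ K) 0 0 1 = fromBlocks (T ^ K) 0 0 1 * M T Z' w :=
    h2.props.2.2.1
  have := hstep.trans h2.real hc2
  have e2 : (fromBlocks (1 : Matrix κ κ ℕ) (T ^ K * σ) 0 (1 : Matrix Unit Unit ℕ)) *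
      fromBlocks (T ^ K) 0 0 1 = fromBlocks (T ^ K) 0 0 1 * fromBlocks 1 σ 0 1 := by
    simp only [fromBlocks_multiply, Matrix.mul_one,
      Matrix.one_mul, Matrix.mul_zero, Matrix.zero_mul, add_zero, zero_add]
  rw [e2] at this
  exact this

theorem pow_M (T : Matrix κ κ ℕ) (Z : Matrix κ Unit ℕ) (w N : ℕ) :
    ∃ Y : Matrix κ Unit ℕ, (M T Z w) ^ N = fromBlocks (T ^ N) Y 0 ((w ^ N) • 1) ∧
      ∀ p, Y p () ≠ 0 → Cn T Z p := by
  induction N with
  | zero => exact ⟨0, by simp, by simp⟩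
  | succ N ih =>
    obtain ⟨Y, h1, h2⟩ := ih
    refine ⟨T * Y + w ^ N • Z, ?_, ?_⟩
    · rw [pow_succ', h1]
      simp only [fromBlocks_multiply, Matrix.mul_smul, Matrix.smul_mul, Matrix.mul_one,
        Matrix.one_mul, Matrix.mul_zero, Matrix.zero_mul, add_zero, zero_add, smul_smul, smul_zero,
        pow_succ', Nat.mul_comm]
    · intro p hp
      by_cases hz : Z p () = 0
      · have : (T * Y) p () ≠ 0 := by
          intro h0
          apply hp
          simp [Matrix.add_apply, h0, hz]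
        exact Cn.up_mul h2 this
      · exact ⟨0, by simpa using hz⟩

theorem unit_eq (q : Matrix Unit Unit ℕ) : q = (q () ()) • (1 : Matrix Unit Unit ℕ) := by
  ext i j
  simp

/-- the core lemma -/
theorem core {T : Matrix κ κ ℕ} (hT : ∀ p, T p p ≠ 0) {w : ℕ} (hw : 1 ≤ w)
    {Z Z' σ : Matrix κ Unit ℕ} {a r N : ℕ} (Q' : Matrix (κ ⊕ Unit) (κ ⊕ Unit) ℕ)
    (hQ : M T Z w * fromBlocks (T ^ a) σ 0 (r • 1) = fromBlocks (T ^ a) σ 0 (r • 1) * M T Z' w)
    (h1 : fromBlocks (T ^ a) σ 0 (r • 1) * Q' = (M T Z w) ^ N)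
    (h2 : Q' * fromBlocks (T ^ a) σ 0 (r • 1) = (M T Z' w) ^ N) :
    Real (M T Z w) (M T Z' w) (fromBlocks (T ^ a) σ 0 (r • 1)) := by
  obtain ⟨Y1, hY1, hY1'⟩ := pow_M T Z w N
  obtain ⟨Y2, hY2, hY2'⟩ := pow_M T Z' w N
  rw [hY1] at h1
  rw [hY2] at h2
  obtain ⟨X, τ, η, q, rfl⟩ : ∃ X τ η, ∃ q : ℕ, Q' = fromBlocks X τ η (q • 1) :=
    ⟨Q'.toBlocks₁₁, Q'.toBlocks₁₂, Q'.toBlocks₂₁, Q'.toBlocks₂₂ () (), by
      rw [← unit_eq, fromBlocks_toBlocks]⟩
  simp only [fromBlocks_multiply, Matrix.mul_smul, Matrix.smul_mul, Matrix.mul_one,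
    Matrix.one_mul, Matrix.mul_zero, Matrix.zero_mul, add_zero, zero_add, smul_smul, smul_zero,
    fromBlocks_inj] at h1 h2 hQ
  obtain ⟨h11, h12, h13, h14⟩ := h1
  obtain ⟨h21, h22, -, -⟩ := h2
  obtain ⟨-, hQ2, -, -⟩ := hQ
  have hrq : r * q = w ^ N := by
    have := congrFun (congrFun h14 ()) ()
    simpa [Nat.mul_comm] using this
  have hr0 : r ≠ 0 := by
    rintro rfl
    have : 0 < w ^ N := by positivity
    omega
  have hq0 : q ≠ 0 := by
    rintro rfl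
    have : 0 < w ^ N := by positivity
    omega
  have hη : η = 0 := by
    ext i j
    have := congrFun (congrFun h13 i) j
    simpa [hr0] using this
  subst hη
  have h21' : X * T ^ a = T ^ N := by simpa using h21
  -- supports
  have hs1 : ∀ p, σ p () ≠ 0 → Cn T Z p := by
    intro p hp
    apply hY1' p
    rw [← h12]
    simp only [Matrix.add_apply, Matrix.smul_apply, smul_eq_mul]
    have : q * σ p () ≠ 0 := Nat.mul_ne_zero hq0 hp
    omega
  have hX : T ^ a * X = T ^ N := by simpa using h11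
  have hs2 : ∀ p, σ p () ≠ 0 → Cn T Z' p := by
    intro p hp
    refine Cn.up_pow hY2' a ?_
    have e1 : T ^ a * Y2 = T ^ N * σ + T ^ a * (r • τ) := by
      rw [← h22, ← hX, Matrix.mul_assoc, ← Matrix.mul_add]
    rw [e1]
    have e2 := mono_pow' hT σ p (Nat.zero_le N)
    simp only [pow_zero, Matrix.one_mul] at e2
    simp only [Matrix.add_apply]
    omega
  -- the scaled equation
  have hE : w ^ N • Z + T * (q • σ) = T ^ a * (q • Z') + w • (q • σ) := by
    have := congrArg (fun m => q • m) hQ2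
    simp only [smul_add, smul_smul] at this
    rw [Matrix.mul_smul, Matrix.mul_smul, smul_smul, ← hrq, Nat.mul_comm r q, Nat.mul_comm w q,
      ← this, add_comm]
  have hs : ∀ p, (q • σ) p () ≠ 0 → Cn T (w ^ N • Z) p ∧ Cn T (T ^ a * (q • Z')) p := by
    intro p hp
    have hp' : σ p () ≠ 0 := by
      intro h0
      apply hp
      simp [h0]
    constructor
    · obtain ⟨j, hj⟩ := hs1 p hp'
      refine ⟨j, ?_⟩
      rw [Matrix.mul_smul]
      simp only [Matrix.smul_apply, smul_eq_mul]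
      exact Nat.mul_ne_zero (by positivity) hj
    · obtain ⟨j, hj⟩ := hs2 p hp'
      refine ⟨j, ?_⟩
      rw [← Matrix.mul_assoc, Matrix.mul_smul, ← pow_add]
      simp only [Matrix.smul_apply, smul_eq_mul]
      refine Nat.mul_ne_zero hq0 ?_
      have := mono_pow' hT Z' p (Nat.le_add_right j a)
      omega
  have hpath := path hT hw hE hs
  obtain ⟨S1, k1, c1⟩ := scale T (w := w) N Z (r := w ^ N) dvd_rfl
  obtain ⟨S2, k2, c2⟩ := scale T (w := w) N Z' (r := q) (Dvd.intro_left r hrq)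
  obtain ⟨S3, k3, c3⟩ := tshift T (q • Z') w a
  refine Real.post c2 ?_
  have e1 : fromBlocks (T ^ a) σ 0 (r • (1 : Matrix Unit Unit ℕ)) *
      fromBlocks (1 : Matrix κ κ ℕ) 0 0 (q • (1 : Matrix Unit Unit ℕ)) =
      fromBlocks (1 : Matrix κ κ ℕ) 0 0 (w ^ N • (1 : Matrix Unit Unit ℕ)) *
        (fromBlocks 1 (q • σ) 0 1 * fromBlocks (T ^ a) 0 0 1) := by
    simp only [fromBlocks_multiply, Matrix.mul_smul, Matrix.smul_mul, Matrix.mul_one,
      Matrix.one_mul, Matrix.mul_zero, Matrix.zero_mul, add_zero, zero_add, smul_smul, smul_zero,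
      ← hrq, Nat.mul_comm]
  rw [e1]
  have hc1 : M T (w ^ N • Z) w * fromBlocks 1 (q • σ) 0 1 =
      fromBlocks 1 (q • σ) 0 1 * M T (T ^ a * (q • Z')) w := by
    simp only [fromBlocks_multiply, Matrix.mul_smul, Matrix.mul_one,
      Matrix.one_mul, Matrix.mul_zero, Matrix.zero_mul, add_zero, zero_add]
    have := hE
    simp only [Matrix.mul_smul] at this
    rw [add_comm (q • (T * σ)), this]
  have hc3 := c3.props.2.2.1
  refine c1.real.trans (hpath.trans c3.real hc3) ?_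
  rw [← Matrix.mul_assoc, hc1, Matrix.mul_assoc, hc3, Matrix.mul_assoc]

end Pool.Agent.H32.SSE
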