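import Mathlib

open Matrix

namespace Pool.Agent.H32.SSE

/-- A square matrix over `ℕ = {0,1,2,…}` of some finite size. -/
abbrev Mat := Σ n : ℕ, Matrix (Fin n) (Fin n) ℕ

/-- Elementary strong shift equivalence over `ℕ`: `X = RS`, `Y = SR`. -/
def ESSE (X Y : Mat) : Prop :=
  ∃ R : Matrix (Fin X.1) (Fin Y.1) ℕ, ∃ S : Matrix (Fin Y.1) (Fin X.1) ℕ,
    X.2 = R * S ∧ Y.2 = S * R

/-- Strong shift equivalence over `ℕ` (elementary strong shift equivalence is symmetric). -/
def SSEquiv (X Y : Mat) : Prop := Relation.ReflTransGen ESSE X Y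

/-- Shift equivalence over `ℕ` with lag `ℓ`. -/
def ShiftEqLag (ℓ : ℕ) (X Y : Mat) : Prop :=
  ∃ R : Matrix (Fin X.1) (Fin Y.1) ℕ, ∃ S : Matrix (Fin Y.1) (Fin X.1) ℕ,
    X.2 ^ ℓ = R * S ∧ Y.2 ^ ℓ = S * R ∧ X.2 * R = R * Y.2 ∧ S * X.2 = Y.2 * S

/-- Shift equivalence over `ℕ`. -/
def ShiftEq (X Y : Mat) : Prop := ∃ ℓ : ℕ, 0 < ℓ ∧ ShiftEqLag ℓ X Y

/-- Every cycle of the directed graph of `X` is a loop (that is, every irreducible component of `X`
is `1 × 1`): there is a height function that increases strictly along every edge that is not a loop.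
Equivalently, `X` is upper triangular after a simultaneous permutation of rows and columns. -/
def LoopsOnly (X : Mat) : Prop :=
  ∃ h : Fin X.1 → ℕ, ∀ i j, X.2 i j ≠ 0 → i = j ∨ h i < h j

end Pool.Agent.H32.SSE
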