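import Pool.Agent.H32.SSE.Core

open Matrix

namespace Pool.Agent.H32.SSE

/-- `A` is triangular with respect to the height function `h`. -/
def Tri {α : Type} (h : α → ℕ) (A : Matrix α α ℕ) : Prop := ∀ i j, A i j ≠ 0 → i = j ∨ h i < h j

/-- the equivalence used to peel off one index -/
def peel {α : Type} [DecidableEq α] (x : α) : {i // i ≠ x} ⊕ Unit ≃ α :=
  (Equiv.optionEquivSumPUnit.{0} {i // i ≠ x}).symm.trans (Equiv.optionSubtypeNe x)

@[simp] theorem peel_inl {α : Type} [DecidableEq α] (x : α) (i : {i // i ≠ x}) :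
    peel x (Sum.inl i) = i.1 := rfl

@[simp] theorem peel_inr {α : Type} [DecidableEq α] (x : α) (u : Unit) :
    peel x (Sum.inr u) = x := rfl

theorem peel_tri {α : Type} [Fintype α] [DecidableEq α] {h : α → ℕ} {x : α} (hx : ∀ y, h y ≤ h x)
    {A : Matrix α α ℕ} (hA : Tri h A) :
    A.submatrix (peel x) (peel x) =
      M (A.submatrix (fun i : {i // i ≠ x} => i.1) (fun i : {i // i ≠ x} => i.1))
        (fun p _ => A p.1 x) (A x x) := by
  ext i j
  rcases i with i | i <;> rcases j with j | j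
  · simp
  · simp
  · simp only [submatrix_apply, peel_inr, peel_inl, fromBlocks_apply₂₁, Matrix.zero_apply]
    by_contra hc
    rcases hA _ _ hc with h1 | h1
    · exact j.2 h1.symm
    · exact absurd (hx j.1) (by omega)
  · simp

theorem main_fixed (n : ℕ) : ∀ (α : Type) [Fintype α] [DecidableEq α], Fintype.card α = n →
    ∀ (h : α → ℕ) (A B R S : Matrix α α ℕ) (ℓ : ℕ), Tri h A → Tri h B → Tri h R → Tri h S →
      (∀ i, A i i ≠ 0) → (∀ i, B i i ≠ 0) → (∀ i, R i i ≠ 0) → (∀ i, S i i ≠ 0) →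
      A * R = R * B → S * A = B * S → R * S = A ^ ℓ → S * R = B ^ ℓ → Real A B R := by
  induction n with
  | zero =>
    intro α _ _ hcard h A B R S ℓ _ _ _ _ _ _ _ _ _ _ _ _
    haveI : IsEmpty α := Fintype.card_eq_zero_iff.1 hcard
    have h1 : A = B := Subsingleton.elim _ _
    subst h1
    have h2 : R = 1 := Subsingleton.elim _ _
    rw [h2]
    exact (Ch.refl A).real
  | succ n ih =>
    intro α _ _ hcard h A B R S ℓ tA tB tR tS dA dB dR dS e1 e2 e3 e4
    haveI : Nonempty α := Fintype.card_pos_iff.1 (by omega)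
    obtain ⟨x, hx⟩ := Finite.exists_max h
    have pA := peel_tri hx tA
    have pB := peel_tri hx tB
    have pR := peel_tri hx tR
    have pS := peel_tri hx tS
    set T := A.submatrix (fun i : {i // i ≠ x} => i.1) (fun i : {i // i ≠ x} => i.1) with hT
    set T' := B.submatrix (fun i : {i // i ≠ x} => i.1) (fun i : {i // i ≠ x} => i.1) with hT'
    set RT := R.submatrix (fun i : {i // i ≠ x} => i.1) (fun i : {i // i ≠ x} => i.1) with hRT
    set ST := S.submatrix (fun i : {i // i ≠ x} => i.1) (fun i : {i // i ≠ x} => i.1) with hST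
    set Y : Matrix {i // i ≠ x} Unit ℕ := fun p _ => A p.1 x with hY
    set Y' : Matrix {i // i ≠ x} Unit ℕ := fun p _ => B p.1 x with hY'
    set ρ : Matrix {i // i ≠ x} Unit ℕ := fun p _ => R p.1 x with hρ
    set s : Matrix {i // i ≠ x} Unit ℕ := fun p _ => S p.1 x with hs
    set w := A x x with hw
    set w' := B x x with hw'
    set r := R x x with hr
    set q := S x x with hq
    have E1 : M T Y w * M RT ρ r = M RT ρ r * M T' Y' w' := by
      rw [← pA, ← pB, ← pR, submatrix_mul_equiv, submatrix_mul_equiv, e1]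
    have E2 : M ST s q * M T Y w = M T' Y' w' * M ST s q := by
      rw [← pA, ← pB, ← pS, submatrix_mul_equiv, submatrix_mul_equiv, e2]
    have hpow : ∀ (C : Matrix α α ℕ) (m : ℕ), (C ^ m).submatrix (peel x) (peel x) =
        (C.submatrix (peel x) (peel x)) ^ m := by
      intro C m
      induction m with
      | zero => simp
      | succ m ihm => rw [pow_succ, ← submatrix_mul_equiv _ _ _ (peel x), ihm, pow_succ]
    have E3 : M RT ρ r * M ST s q = (M T Y w) ^ ℓ := by
      rw [← pA, ← pR, ← pS, submatrix_mul_equiv, e3, hpow]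
    have E4 : M ST s q * M RT ρ r = (M T' Y' w') ^ ℓ := by
      rw [← pB, ← pR, ← pS, submatrix_mul_equiv, e4, hpow]
    -- the blocks
    have F1 := E1
    have F2 := E2
    have F3 := E3
    have F4 := E4
    obtain ⟨Ya, hYa, -⟩ := pow_M T Y w ℓ
    obtain ⟨Yb, hYb, -⟩ := pow_M T' Y' w' ℓ
    rw [hYa] at F3
    rw [hYb] at F4
    simp only [fromBlocks_multiply, Matrix.mul_smul, Matrix.smul_mul, Matrix.mul_one,
      Matrix.one_mul, Matrix.mul_zero, Matrix.zero_mul, add_zero, zero_add, smul_smul, smul_zero,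
      fromBlocks_inj] at F1 F2 F3 F4
    obtain ⟨F11, -, -, F14⟩ := F1
    obtain ⟨F21, -, -, -⟩ := F2
    obtain ⟨F31, -, -, -⟩ := F3
    obtain ⟨F41, -, -, -⟩ := F4
    have hr0 : r ≠ 0 := dR x
    have hww : w = w' := by
      have h1 := congrFun (congrFun F14 ()) ()
      simp only [Matrix.smul_apply, Matrix.one_apply_eq, smul_eq_mul, Nat.mul_one] at h1
      have h2 : r * w = r * w' := by linarith [h1, Nat.mul_comm w' r, Nat.mul_comm r w]
      exact Nat.eq_of_mul_eq_mul_left (Nat.pos_of_ne_zero hr0) h2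
    rw [← hww] at E1 E2 E4 pB
    have hcκ : Fintype.card {i // i ≠ x} = n := by
      have := Fintype.card_congr (peel x)
      rw [Fintype.card_sum, hcard, Fintype.card_unit] at this
      omega
    have subT : ∀ {C : Matrix α α ℕ}, Tri h C →
        Tri (fun i : {i // i ≠ x} => h i.1)
          (C.submatrix (fun i : {i // i ≠ x} => i.1) (fun i : {i // i ≠ x} => i.1)) := by
      intro C hC i j hij
      rcases hC i.1 j.1 hij with h1 | h1
      · exact Or.inl (Subtype.ext h1)
      · exact Or.inr h1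
    obtain ⟨R0, S0, k, i, j, hc, he⟩ := ih {i // i ≠ x} hcκ (fun i => h i.1) T T' RT ST ℓ
      (subT tA) (subT tB) (subT tR) (subT tS) (fun i => dA i.1) (fun i => dB i.1)
      (fun i => dR i.1) (fun i => dS i.1) F11 F21 F31 F41
    obtain ⟨X, hl⟩ := hc.lift Y (w • (1 : Matrix Unit Unit ℕ))
    obtain ⟨l1, l2, l3, l4⟩ := hl.props
    obtain ⟨c1, c2, c3, c4⟩ := hc.props
    -- it suffices to treat the primed problem
    suffices hmain : Real (M T Y w) (M T' Y' w) (M RT ρ r) by
      have := hmain.reindex (peel x).symm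
      rw [← pA, ← pB, ← pR] at this
      simpa [Matrix.submatrix_submatrix] using this
    refine Real.pre hl E1 ?_
    refine Real.of_pow (m := j) ?_
    obtain ⟨Yj, hYj, -⟩ := pow_M T' Y' w j
    have eQ : fromBlocks S0 0 0 (1 : Matrix Unit Unit ℕ) * M RT ρ r * (M T' Y' w) ^ j =
        fromBlocks (T' ^ (k + i)) ((S0 * RT) * Yj + w ^ j • (S0 * ρ)) 0 ((r * w ^ j) • 1) := by
      rw [hYj]
      simp only [fromBlocks_multiply, Matrix.mul_smul, Matrix.smul_mul, Matrix.mul_one,
        Matrix.one_mul, Matrix.mul_zero, Matrix.zero_mul, add_zero, zero_add, smul_smul, smul_zero]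
      have : S0 * RT * T' ^ j = T' ^ (k + i) := by
        rw [Matrix.mul_assoc, ← he, ← Matrix.mul_assoc, c2, pow_add]
      rw [this, Nat.mul_comm (w ^ j) r]
    have l5 : ∀ m : ℕ, fromBlocks S0 0 0 (1 : Matrix Unit Unit ℕ) * (M T Y w) ^ m =
        (M T' (S0 * Y) w) ^ m * fromBlocks S0 0 0 1 := by
      intro m
      exact (comm_pow l4 m).symm
    have l6 : ∀ m : ℕ, M ST s q * (M T Y w) ^ m = (M T' Y' w) ^ m * M ST s q := by
      intro m
      exact (comm_pow E2.symm m).symm
    have hQB : M T' (S0 * Y) w * (fromBlocks S0 0 0 (1 : Matrix Unit Unit ℕ) * M RT ρ r *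
        (M T' Y' w) ^ j) = (fromBlocks S0 0 0 (1 : Matrix Unit Unit ℕ) * M RT ρ r *
        (M T' Y' w) ^ j) * M T' Y' w := by
      calc _ = (M T' (S0 * Y) w * fromBlocks S0 0 0 (1 : Matrix Unit Unit ℕ)) * M RT ρ r *
            (M T' Y' w) ^ j := by simp only [Matrix.mul_assoc]
        _ = fromBlocks S0 0 0 (1 : Matrix Unit Unit ℕ) * (M T Y w * M RT ρ r) *
            (M T' Y' w) ^ j := by rw [l4]; simp only [Matrix.mul_assoc]
        _ = fromBlocks S0 0 0 (1 : Matrix Unit Unit ℕ) * M RT ρ r * (M T' Y' w *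
            (M T' Y' w) ^ j) := by rw [E1]; simp only [Matrix.mul_assoc]
        _ = _ := by rw [← pow_succ', pow_succ]; simp only [Matrix.mul_assoc]
    have hQ1 : (fromBlocks S0 0 0 (1 : Matrix Unit Unit ℕ) * M RT ρ r *
        (M T' Y' w) ^ j) * (M ST s q * fromBlocks R0 X 0 ((w • (1 : Matrix Unit Unit ℕ)) ^ k)) =
        (M T' (S0 * Y) w) ^ (ℓ + j + k) := by
      calc _ = fromBlocks S0 0 0 (1 : Matrix Unit Unit ℕ) * M RT ρ r *
          ((M T' Y' w) ^ j * M ST s q) * fromBlocks R0 X 0 ((w • (1 : Matrix Unit Unit ℕ)) ^ k) := by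
            simp only [Matrix.mul_assoc]
        _ = fromBlocks S0 0 0 (1 : Matrix Unit Unit ℕ) * (M RT ρ r *
          M ST s q) * (M T Y w) ^ j * fromBlocks R0 X 0 ((w • (1 : Matrix Unit Unit ℕ)) ^ k) := by
            rw [← l6]; simp only [Matrix.mul_assoc]
        _ = fromBlocks S0 0 0 (1 : Matrix Unit Unit ℕ) * (M T Y w) ^ (ℓ + j) *
          fromBlocks R0 X 0 ((w • (1 : Matrix Unit Unit ℕ)) ^ k) := by
            rw [E3, pow_add]; simp only [Matrix.mul_assoc]
        _ = (M T' (S0 * Y) w) ^ (ℓ + j) * (fromBlocks S0 0 0 (1 : Matrix Unit Unit ℕ) *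
          fromBlocks R0 X 0 ((w • (1 : Matrix Unit Unit ℕ)) ^ k)) := by
            rw [l5]; simp only [Matrix.mul_assoc]
        _ = _ := by rw [l2, ← pow_add]
    have hQ2 : (M ST s q * fromBlocks R0 X 0 ((w • (1 : Matrix Unit Unit ℕ)) ^ k)) *
        (fromBlocks S0 0 0 (1 : Matrix Unit Unit ℕ) * M RT ρ r *
        (M T' Y' w) ^ j) = (M T' Y' w) ^ (ℓ + j + k) := by
      calc _ = M ST s q * (fromBlocks R0 X 0 ((w • (1 : Matrix Unit Unit ℕ)) ^ k) *
          fromBlocks S0 0 0 (1 : Matrix Unit Unit ℕ)) * M RT ρ r * (M T' Y' w) ^ j := by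
            simp only [Matrix.mul_assoc]
        _ = (M T' Y' w) ^ k * (M ST s q * M RT ρ r) * (M T' Y' w) ^ j := by
            rw [l1, l6]; simp only [Matrix.mul_assoc]
        _ = _ := by
            rw [E4, ← pow_add, ← pow_add]
            congr 1
            omega
    rw [eQ] at hQB hQ1 hQ2 ⊢
    exact core (fun i => dB i.1) (Nat.one_le_iff_ne_zero.mpr (dA x)) _ hQB hQ1 hQ2

end Pool.Agent.H32.SSE
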