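import Pool.Agent.H32.SSE.Defs
import Pool.Agent.H32.SSE.Main

open Matrix

namespace Pool.Agent.H32.SSE

theorem ESSE.symm {X Y : Mat} (h : ESSE X Y) : ESSE Y X := by
  obtain ⟨R, S, h1, h2⟩ := h
  exact ⟨S, R, h2, h1⟩

theorem SSEquiv.symm {X Y : Mat} (h : SSEquiv X Y) : SSEquiv Y X := by
  induction h with
  | refl => exact Relation.ReflTransGen.refl
  | tail _ h2 ih => exact Relation.ReflTransGen.head h2.symm ih

theorem SSEquiv.trans {X Y Z : Mat} (h : SSEquiv X Y) (h' : SSEquiv Y Z) : SSEquiv X Z :=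
  Relation.ReflTransGen.trans h h'

section SE

variable {α β γ : Type} [Fintype α] [DecidableEq α] [Fintype β] [DecidableEq β]
  [Fintype γ] [DecidableEq γ]

/-- shift equivalence for matrices with arbitrary index types -/
def SEq (A : Matrix α α ℕ) (B : Matrix β β ℕ) : Prop :=
  ∃ ℓ : ℕ, 0 < ℓ ∧ ∃ R : Matrix α β ℕ, ∃ S : Matrix β α ℕ,
    A ^ ℓ = R * S ∧ B ^ ℓ = S * R ∧ A * R = R * B ∧ S * A = B * S

/-- elementary strong shift equivalence for arbitrary index types -/
def ES (A : Matrix α α ℕ) (B : Matrix β β ℕ) : Prop :=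
  ∃ R : Matrix α β ℕ, ∃ S : Matrix β α ℕ, A = R * S ∧ B = S * R

theorem comm_pow' {A : Matrix α α ℕ} {B : Matrix β β ℕ} {R : Matrix α β ℕ} (h : A * R = R * B)
    (k : ℕ) : A ^ k * R = R * B ^ k := by
  induction k with
  | zero => simp
  | succ k ih => rw [pow_succ, Matrix.mul_assoc, h, ← Matrix.mul_assoc, ih, Matrix.mul_assoc, pow_succ]

theorem SEq.symm {A : Matrix α α ℕ} {B : Matrix β β ℕ} (h : SEq A B) : SEq B A := by
  obtain ⟨ℓ, hl, R, S, h1, h2, h3, h4⟩ := h
  exact ⟨ℓ, hl, S, R, h2, h1, h4.symm, h3.symm⟩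

theorem SEq.trans {A : Matrix α α ℕ} {B : Matrix β β ℕ} {C : Matrix γ γ ℕ} (h : SEq A B)
    (h' : SEq B C) : SEq A C := by
  obtain ⟨ℓ, hl, R, S, h1, h2, h3, h4⟩ := h
  obtain ⟨m, hm, R', S', g1, g2, g3, g4⟩ := h'
  refine ⟨ℓ + m, by omega, R * R', S' * S, ?_, ?_, ?_, ?_⟩
  · calc A ^ (ℓ + m) = A ^ m * (R * S) := by rw [Nat.add_comm, pow_add, h1]
      _ = R * (B ^ m) * S := by rw [← Matrix.mul_assoc, comm_pow' h3]
      _ = _ := by rw [g1]; simp only [Matrix.mul_assoc]
  · calc C ^ (ℓ + m) = C ^ ℓ * (S' * R') := by rw [pow_add, g2]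
      _ = S' * (B ^ ℓ) * R' := by rw [← Matrix.mul_assoc, comm_pow' g4.symm]
      _ = _ := by rw [h2]; simp only [Matrix.mul_assoc]
  · rw [← Matrix.mul_assoc, h3, Matrix.mul_assoc, g3, Matrix.mul_assoc]
  · rw [Matrix.mul_assoc, h4, ← Matrix.mul_assoc, g4, Matrix.mul_assoc]

theorem ES.seq {A : Matrix α α ℕ} {B : Matrix β β ℕ} (h : ES A B) : SEq A B := by
  obtain ⟨R, S, h1, h2⟩ := h
  refine ⟨1, one_pos, R, S, ?_, ?_, ?_, ?_⟩
  · rw [pow_one, h1]
  · rw [pow_one, h2]
  · rw [h1, h2, Matrix.mul_assoc]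
  · rw [h1, h2, Matrix.mul_assoc]

/-- transfer to `Fin n` -/
noncomputable def toMat (A : Matrix α α ℕ) : Mat :=
  ⟨Fintype.card α, A.submatrix (Fintype.equivFin α).symm (Fintype.equivFin α).symm⟩

def Conn (A : Matrix α α ℕ) (B : Matrix β β ℕ) : Prop := SSEquiv (toMat A) (toMat B)

theorem ES.conn {A : Matrix α α ℕ} {B : Matrix β β ℕ} (h : ES A B) : Conn A B := by
  obtain ⟨R, S, h1, h2⟩ := h
  refine Relation.ReflTransGen.single ⟨R.submatrix (Fintype.equivFin α).symm
    (Fintype.equivFin β).symm, S.submatrix (Fintype.equivFin β).symm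
    (Fintype.equivFin α).symm, ?_, ?_⟩
  · exact (congrArg (fun m : Matrix α α ℕ => m.submatrix (Fintype.equivFin α).symm
      (Fintype.equivFin α).symm) h1).trans (submatrix_mul_equiv R S _ _ _).symm
  · exact (congrArg (fun m : Matrix β β ℕ => m.submatrix (Fintype.equivFin β).symm
      (Fintype.equivFin β).symm) h2).trans (submatrix_mul_equiv S R _ _ _).symm

theorem ES.reindex (A : Matrix α α ℕ) (e : β ≃ α) : ES A (A.submatrix e e) := by
  refine ⟨A.submatrix id e, (1 : Matrix α α ℕ).submatrix e id, ?_, ?_⟩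
  · rw [submatrix_mul_equiv, Matrix.mul_one, submatrix_id_id]
  · have := submatrix_mul_equiv (1 : Matrix α α ℕ) A e (Equiv.refl α) e
    simp only [Equiv.coe_refl] at this
    rw [this, Matrix.one_mul]

theorem Conn.trans {A : Matrix α α ℕ} {B : Matrix β β ℕ} {C : Matrix γ γ ℕ} (h : Conn A B)
    (h' : Conn B C) : Conn A C := SSEquiv.trans h h'

theorem Conn.symm {A : Matrix α α ℕ} {B : Matrix β β ℕ} (h : Conn A B) : Conn B A :=
  SSEquiv.symm h

theorem Ch.conn {A B R S : Matrix α α ℕ} {k : ℕ} (h : Ch A B R S k) : Conn A B := by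
  induction h with
  | refl => exact Relation.ReflTransGen.refl
  | step P Q _ ih => exact ih.trans (ES.conn ⟨P, Q, rfl, rfl⟩)

end SE

theorem conn_fin {n m : ℕ} {A : Matrix (Fin n) (Fin n) ℕ} {B : Matrix (Fin m) (Fin m) ℕ}
    (h : Conn A B) : SSEquiv ⟨n, A⟩ ⟨m, B⟩ := by
  have key : ∀ (n : ℕ) (A : Matrix (Fin n) (Fin n) ℕ), SSEquiv ⟨n, A⟩ (toMat A) := by
    intro n A
    have := ES.reindex A (Fintype.equivFin (Fin n)).symm
    exact Relation.ReflTransGen.single this
  exact ((key n A).trans h).trans (key m B).symm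

theorem ShiftEq.seq {X Y : Mat} (h : ShiftEq X Y) : SEq X.2 Y.2 := h

theorem SSEquiv.shiftEq {X Y : Mat} (h : SSEquiv X Y) : ShiftEq X Y := by
  induction h with
  | refl => exact ES.seq ⟨X.2, 1, by simp, by simp⟩
  | tail _ h2 ih => exact SEq.trans ih (ES.seq h2)

/-! ### removing vanishing diagonal entries -/

section Remove

variable {α : Type} [Fintype α] [DecidableEq α]

theorem remove_one {h : α → ℕ} {A : Matrix α α ℕ} (hA : Tri h A) {x : α} (hx : A x x = 0) :
    ∃ C : Matrix {i // i ≠ x} {i // i ≠ x} ℕ, Tri (fun i => h i.1) C ∧ ES A C := by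
  classical
  set R : Matrix α {i // i ≠ x} ℕ := fun k j =>
    if h k < h x then (if k = j.1 then 1 else 0) else A k j.1 with hR
  set S : Matrix {i // i ≠ x} α ℕ := fun k j =>
    if h k.1 < h x then A k.1 j else (if k.1 = j then 1 else 0) with hS
  refine ⟨S * R, ?_, R, S, ?_, rfl⟩
  · intro k l hkl
    rw [Matrix.mul_apply] at hkl
    obtain ⟨j, -, hj⟩ := Finset.exists_ne_zero_of_sum_ne_zero hkl
    have h1 : S k j ≠ 0 := left_ne_zero_of_mul hj
    have h2 : R j l ≠ 0 := right_ne_zero_of_mul hj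
    have g1 : k.1 = j ∨ h k.1 < h j := by
      simp only [hS] at h1
      split_ifs at h1 with c1 c2
      · exact hA _ _ h1
      · exact Or.inl c2
      · exact absurd rfl h1
    have g2 : j = l.1 ∨ h j < h l.1 := by
      simp only [hR] at h2
      split_ifs at h2 with c1 c2
      · exact Or.inl c2
      · exact absurd rfl h2
      · exact hA _ _ h2
    rcases g1 with g1 | g1 <;> rcases g2 with g2 | g2
    · exact Or.inl (Subtype.ext (g1.trans g2))
    · right; show h k.1 < h l.1; rw [g1]; exact g2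
    · right; show h k.1 < h l.1; rw [← g2]; exact g1
    · right; exact g1.trans g2
  · ext i j
    rw [Matrix.mul_apply]
    by_cases hi : h i < h x
    · have hix : i ≠ x := by
        rintro rfl
        exact lt_irrefl _ hi
      rw [Finset.sum_eq_single (⟨i, hix⟩ : {i // i ≠ x})]
      · simp [hR, hS, hi]
      · intro b _ hb
        have : i ≠ b.1 := fun hib => hb (Subtype.ext hib.symm)
        simp [hR, hi, this]
      · intro hb
        exact absurd (Finset.mem_univ _) hb
    · have e1 : ∀ k : {i // i ≠ x}, R i k * S k j = A i k.1 * (if k.1 = j then 1 else 0) := by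
        intro k
        simp only [hR, hS, hi, if_false]
        by_cases hk : A i k.1 = 0
        · simp [hk]
        · have : ¬ h k.1 < h x := by
            rcases hA _ _ hk with g | g
            · rw [← g]; exact hi
            · omega
          simp [this]
      simp only [e1]
      by_cases hj : j = x
      · subst hj
        have e2 : A i j = 0 := by
          by_contra hc
          rcases hA _ _ hc with g | g
          · subst g; exact hc hx
          · exact hi g
        rw [e2]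
        symm
        apply Finset.sum_eq_zero
        intro k _
        rw [if_neg k.2, mul_zero]
      · rw [Finset.sum_eq_single (⟨j, hj⟩ : {i // i ≠ x})]
        · simp
        · intro b _ hb
          have : b.1 ≠ j := fun hbj => hb (Subtype.ext hbj)
          simp [this]
        · intro hb
          exact absurd (Finset.mem_univ _) hb

theorem remove_all (n : ℕ) : ∀ (α : Type) [Fintype α] [DecidableEq α], Fintype.card α = n →
    ∀ (h : α → ℕ) (A : Matrix α α ℕ), Tri h A →
      ∃ (β : Type) (_ : Fintype β) (_ : DecidableEq β) (h' : β → ℕ) (C : Matrix β β ℕ),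
        Tri h' C ∧ (∀ i, C i i ≠ 0) ∧ Conn A C ∧ SEq A C := by
  induction n with
  | zero =>
    intro α _ _ hcard h A hA
    haveI : IsEmpty α := Fintype.card_eq_zero_iff.1 hcard
    exact ⟨α, inferInstance, inferInstance, h, A, hA, fun i => isEmptyElim i,
      Relation.ReflTransGen.refl, ES.seq ⟨A, 1, by simp, by simp⟩⟩
  | succ n ih =>
    intro α _ _ hcard h A hA
    by_cases hd : ∀ i, A i i ≠ 0
    · exact ⟨α, inferInstance, inferInstance, h, A, hA, hd,
        Relation.ReflTransGen.refl, ES.seq ⟨A, 1, by simp, by simp⟩⟩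
    · push Not at hd
      obtain ⟨x, hx⟩ := hd
      obtain ⟨C, hC, hAC⟩ := remove_one hA hx
      have hcκ : Fintype.card {i // i ≠ x} = n := by
        have := Fintype.card_congr (peel x)
        rw [Fintype.card_sum, hcard, Fintype.card_unit] at this
        omega
      obtain ⟨β, i1, i2, h', D, t, d, c, s⟩ := ih {i // i ≠ x} hcκ _ C hC
      exact ⟨β, i1, i2, h', D, t, d, hAC.conn.trans c, hAC.seq.trans s⟩

end Remove

/-! ### matching the components -/

theorem Tri.pow {α : Type} [Fintype α] [DecidableEq α] {h : α → ℕ} {A : Matrix α α ℕ}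
    (hA : Tri h A) (k : ℕ) : Tri h (A ^ k) := by
  induction k with
  | zero =>
    intro i j hij
    left
    by_contra hc
    exact hij (by simp [Matrix.one_apply, hc])
  | succ k ih =>
    intro i j hij
    rw [pow_succ, Matrix.mul_apply] at hij
    obtain ⟨l, -, hl⟩ := Finset.exists_ne_zero_of_sum_ne_zero hij
    rcases ih i l (left_ne_zero_of_mul hl) with g1 | g1 <;>
      rcases hA l j (right_ne_zero_of_mul hl) with g2 | g2
    · exact Or.inl (g1.trans g2)
    · right; rw [g1]; exact g2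
    · right; rw [← g2]; exact g1
    · right; exact g1.trans g2

theorem mul_ne_zero_of {α β γ : Type} [Fintype β] {R : Matrix α β ℕ} {S : Matrix β γ ℕ}
    {i : α} {k : β} {j : γ} (h1 : R i k ≠ 0) (h2 : S k j ≠ 0) : (R * S) i j ≠ 0 := by
  rw [Matrix.mul_apply]
  intro h0
  rw [Finset.sum_eq_zero_iff] at h0
  exact (mul_ne_zero h1 h2) (h0 k (Finset.mem_univ _))

theorem diag_pow {α : Type} [Fintype α] [DecidableEq α] {A : Matrix α α ℕ}
    (hA : ∀ i, A i i ≠ 0) (k : ℕ) (i : α) : (A ^ k) i i ≠ 0 := by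
  induction k with
  | zero => simp
  | succ k ih => rw [pow_succ]; exact mul_ne_zero_of ih (hA i)

theorem matching {α β : Type} [Fintype α] [DecidableEq α] [Fintype β] [DecidableEq β]
    {h : α → ℕ} {A : Matrix α α ℕ} (hA : Tri h A)
    (dA : ∀ i, A i i ≠ 0) {ℓ : ℕ} {R : Matrix α β ℕ} {S : Matrix β α ℕ}
    (e1 : A ^ ℓ = R * S) :
    ∃ f : α → β, Function.Injective f ∧ ∀ i, R i (f i) ≠ 0 ∧ S (f i) i ≠ 0 := by
  have : ∀ i, ∃ k, R i k ≠ 0 ∧ S k i ≠ 0 := by
    intro i
    have h1 := diag_pow dA ℓ i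
    rw [e1, Matrix.mul_apply] at h1
    obtain ⟨l, -, hl⟩ := Finset.exists_ne_zero_of_sum_ne_zero h1
    exact ⟨l, left_ne_zero_of_mul hl, right_ne_zero_of_mul hl⟩
  choose f hf using this
  refine ⟨f, fun i j hij => ?_, hf⟩
  have h1 : (A ^ ℓ) i j ≠ 0 := by
    rw [e1]
    exact mul_ne_zero_of (hf i).1 (by rw [hij]; exact (hf j).2)
  have h2 : (A ^ ℓ) j i ≠ 0 := by
    rw [e1]
    exact mul_ne_zero_of (hf j).1 (by rw [← hij]; exact (hf i).2)
  rcases hA.pow ℓ _ _ h1 with g | g
  · exact g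
  · rcases hA.pow ℓ _ _ h2 with g' | g'
    · exact g'.symm
    · omega

theorem main_pos {α β : Type} [Fintype α] [DecidableEq α] [Fintype β] [DecidableEq β]
    {h : α → ℕ} {h' : β → ℕ} {A : Matrix α α ℕ} {B : Matrix β β ℕ} (hA : Tri h A) (hB : Tri h' B)
    (dA : ∀ i, A i i ≠ 0) (dB : ∀ i, B i i ≠ 0) (hAB : SEq A B) : Conn A B := by
  obtain ⟨ℓ, hl, R, S, e1, e2, e3, e4⟩ := hAB
  obtain ⟨f, hf, hfR⟩ := matching hA dA e1
  obtain ⟨g, hg, -⟩ := matching hB dB e2
  have hcard : Fintype.card α = Fintype.card β :=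
    le_antisymm (Fintype.card_le_of_injective f hf) (Fintype.card_le_of_injective g hg)
  have hbij : Function.Bijective f :=
    (Fintype.bijective_iff_injective_and_card f).2 ⟨hf, hcard⟩
  set e : α ≃ β := Equiv.ofBijective f hbij with he
  have hef : ∀ i, e i = f i := fun i => rfl
  set B' := B.submatrix e e with hB'
  set R' := R.submatrix id e with hR'
  set S' := S.submatrix e id with hS'
  have E1 : A * R' = R' * B' := by
    have h1 := submatrix_mul_equiv A R id (Equiv.refl α) e
    simp only [Equiv.coe_refl, submatrix_id_id] at h1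
    rw [hR', hB', submatrix_mul_equiv, h1, e3]
  have E2 : S' * A = B' * S' := by
    have h1 := submatrix_mul_equiv S A e (Equiv.refl α) id
    simp only [Equiv.coe_refl, submatrix_id_id] at h1
    rw [hS', hB', submatrix_mul_equiv, h1, e4]
  have E3 : R' * S' = A ^ ℓ := by
    rw [hR', hS', submatrix_mul_equiv, e1, submatrix_id_id]
  have hpow : ∀ m : ℕ, B' ^ m = (B ^ m).submatrix e e := by
    intro m
    induction m with
    | zero => simp
    | succ m ih => rw [pow_succ, ih, hB', submatrix_mul_equiv, pow_succ]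
  have E4 : S' * R' = B' ^ ℓ := by
    have h1 := submatrix_mul_equiv S R e (Equiv.refl α) e
    simp only [Equiv.coe_refl] at h1
    rw [hR', hS', h1, hpow, e2]
  have dR : ∀ i, R' i i ≠ 0 := fun i => (hfR i).1
  have dS : ∀ i, S' i i ≠ 0 := fun i => (hfR i).2
  have tR : Tri h R' := by
    intro i j hij
    apply hA.pow ℓ
    rw [← E3]
    exact mul_ne_zero_of hij (dS j)
  have tS : Tri h S' := by
    intro i j hij
    apply hA.pow ℓ
    rw [← E3]
    exact mul_ne_zero_of (dR i) hij
  have tB : Tri h B' := by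
    intro i j hij
    apply hA.pow (ℓ + 1)
    have : A ^ (ℓ + 1) = R' * B' * S' := by
      rw [← E1, Matrix.mul_assoc, E3, ← pow_succ']
    rw [this]
    exact mul_ne_zero_of (mul_ne_zero_of (dR i) hij) (dS j)
  have dB' : ∀ i, B' i i ≠ 0 := fun i => dB _
  obtain ⟨R0, S0, k, i, j, hc, -⟩ := main_fixed _ α rfl h A B' R' S' ℓ hA tB tR tS dA dB' dR dS
    E1 E2 E3 E4
  exact hc.conn.trans (ES.reindex B e).conn.symm

theorem main_tri {α β : Type} [Fintype α] [DecidableEq α] [Fintype β] [DecidableEq β]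
    {h : α → ℕ} {h' : β → ℕ} {A : Matrix α α ℕ} {B : Matrix β β ℕ} (hA : Tri h A) (hB : Tri h' B)
    (hAB : SEq A B) : Conn A B := by
  obtain ⟨α', _, _, g, A', t1, d1, c1, s1⟩ := remove_all _ α rfl h A hA
  obtain ⟨β', _, _, g', B', t2, d2, c2, s2⟩ := remove_all _ β rfl h' B hB
  exact (c1.trans (main_pos t1 t2 d1 d2 ((s1.symm.trans hAB).trans s2))).trans c2.symm

end Pool.Agent.H32.SSE
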