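import Pool.Agent.H32.SSE.Final

open Matrix

namespace Pool.Agent.H32.SSE

variable {α β : Type} [Fintype α] [DecidableEq α] [Fintype β] [DecidableEq β]

theorem two_terms {B C : Matrix α α ℕ} {i k j l : α} (hij : k ≠ l) :
    B i k * C k j + B i l * C l j ≤ (B * C) i j := by
  classical
  rw [Matrix.mul_apply]
  have h := Finset.sum_le_sum_of_subset (f := fun x => B i x * C x j)
    (Finset.subset_univ ({k, l} : Finset α))
  rwa [Finset.sum_pair hij] at h

theorem one_term {B C : Matrix α α ℕ} {i k j : α} : B i k * C k j ≤ (B * C) i j := by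
  rw [Matrix.mul_apply]
  exact Finset.single_le_sum (f := fun x => B i x * C x j) (fun _ _ => Nat.zero_le _)
    (Finset.mem_univ k)

theorem tri_diag_pow {h : α → ℕ} {A : Matrix α α ℕ} (hA : Tri h A) (k : ℕ) (i : α) :
    (A ^ k) i i = (A i i) ^ k := by
  induction k with
  | zero => simp
  | succ k ih =>
    rw [pow_succ, Matrix.mul_apply, Finset.sum_eq_single i, ih, pow_succ]
    · intro j _ hj
      by_contra hc
      rcases hA.pow k _ _ (left_ne_zero_of_mul hc) with g | g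
      · exact hj g.symm
      · rcases hA _ _ (right_ne_zero_of_mul hc) with g' | g'
        · exact hj g'
        · omega
    · intro hi
      exact absurd (Finset.mem_univ _) hi

theorem trace_seq {A : Matrix α α ℕ} {B : Matrix β β ℕ} {ℓ : ℕ} {R : Matrix α β ℕ}
    {S : Matrix β α ℕ} (e1 : A ^ ℓ = R * S) (e2 : B ^ ℓ = S * R) (e3 : A * R = R * B)
    (k : ℕ) (hk : ℓ ≤ k) : trace (B ^ k) = trace (A ^ k) := by
  obtain ⟨j, rfl⟩ := Nat.exists_eq_add_of_le hk
  calc trace (B ^ (ℓ + j)) = trace (S * (R * B ^ j)) := by rw [pow_add, e2, Matrix.mul_assoc]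
    _ = trace (S * (A ^ j * R)) := by rw [comm_pow' e3]
    _ = trace (A ^ j * R * S) := by rw [Matrix.trace_mul_comm]
    _ = trace (A ^ (ℓ + j)) := by rw [Matrix.mul_assoc, ← e1, ← pow_add, Nat.add_comm]

theorem loops_of_trace {B : Matrix α α ℕ} {d ℓ : ℕ} (hl : 0 < ℓ)
    (htr : ∀ k, ℓ ≤ k → trace (B ^ k) = d) : ∃ h : α → ℕ, Tri h B := by
  classical
  -- closed walks are unique
  have hle : ∀ (k : ℕ), ℓ ≤ k → ∀ i, (B ^ k) i i ≤ d := by
    intro k hk i
    rw [← htr k hk, Matrix.trace]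
    exact Finset.single_le_sum (f := fun i => (B ^ k).diag i) (fun _ _ => Nat.zero_le _)
      (Finset.mem_univ i)
  have hmul : ∀ (k m : ℕ) (i : α), ((B ^ k) i i) ^ m ≤ (B ^ (k * m)) i i := by
    intro k m i
    induction m with
    | zero => simp
    | succ m ih =>
      calc ((B ^ k) i i) ^ (m + 1) = ((B ^ k) i i) ^ m * (B ^ k) i i := pow_succ _ _
        _ ≤ (B ^ (k * m)) i i * (B ^ k) i i := Nat.mul_le_mul_right _ ih
        _ ≤ (B ^ (k * m) * B ^ k) i i := one_term
        _ = (B ^ (k * (m + 1))) i i := by rw [← pow_add, Nat.mul_succ]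
  have s1 : ∀ (k : ℕ), 0 < k → ∀ i, (B ^ k) i i ≤ 1 := by
    intro k hk i
    by_contra hc
    push Not at hc
    have h1 := hmul k (ℓ + d) i
    have h2 := hle (k * (ℓ + d)) (by nlinarith) i
    have h3 : 2 ^ (ℓ + d) ≤ ((B ^ k) i i) ^ (ℓ + d) := Nat.pow_le_pow_left hc _
    have h4 : ℓ + d < 2 ^ (ℓ + d) := Nat.lt_two_pow_self
    omega
  -- indices on cycles
  set P : Finset α := Finset.univ.filter (fun i => ∃ c : ℕ, 0 < c ∧ (B ^ c) i i ≠ 0) with hP
  have hc : ∀ i, ∃ c : ℕ, 0 < c ∧ (i ∈ P → (B ^ c) i i ≠ 0) := by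
    intro i
    by_cases hi : i ∈ P
    · simp only [hP, Finset.mem_filter, Finset.mem_univ, true_and] at hi
      obtain ⟨c, h1, h2⟩ := hi
      exact ⟨c, h1, fun _ => h2⟩
    · exact ⟨1, one_pos, fun h => absurd h hi⟩
  choose c hc0 hc1 using hc
  set K := (∏ i, c i) * ℓ with hK
  have hK0 : 0 < ∏ i, c i := Finset.prod_pos fun i _ => hc0 i
  have hKl : ℓ ≤ K := Nat.le_mul_of_pos_left _ hK0
  have hPK : ∀ i ∈ P, (B ^ K) i i ≠ 0 := by
    intro i hi
    have h1 : c i ∣ K := (Finset.dvd_prod_of_mem c (Finset.mem_univ i)).mul_right _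
    obtain ⟨m, hm⟩ := h1
    rw [hm]
    have h2 := hmul (c i) m i
    have h3 : 0 < ((B ^ c i) i i) ^ m := Nat.pow_pos (Nat.pos_of_ne_zero (hc1 i hi))
    omega
  have hsum : ∀ k, 0 < k → trace (B ^ k) = ∑ i ∈ P, (B ^ k) i i := by
    intro k hk
    rw [Matrix.trace]
    symm
    apply Finset.sum_subset (Finset.subset_univ P)
    intro i _ hi
    by_contra hne
    apply hi
    simp only [hP, Finset.mem_filter, Finset.mem_univ, true_and]
    exact ⟨k, hk, hne⟩
  have hd : d = P.card := by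
    rw [← htr K hKl, hsum K (by omega), Finset.card_eq_sum_ones]
    apply Finset.sum_congr rfl
    intro i hi
    have h1 := hPK i hi
    have h2 := s1 K (by omega) i
    omega
  have s2 : ∀ i ∈ P, ∀ k, ℓ ≤ k → (B ^ k) i i = 1 := by
    intro i hi k hk
    have h1 : ∑ i ∈ P, (B ^ k) i i = ∑ i ∈ P, 1 := by
      rw [← hsum k (by omega), htr k hk, hd, Finset.card_eq_sum_ones]
    exact (Finset.sum_eq_sum_iff_of_le (fun i _ => s1 k (by omega) i)).1 h1 i hi
  have s3 : ∀ i j, i ≠ j → ∀ s t : ℕ, (B ^ s) i j ≠ 0 → (B ^ t) j i ≠ 0 → False := by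
    intro i j hij s t h1 h2
    have hs0 : 0 < s := by
      rcases Nat.eq_zero_or_pos s with h | h
      · subst h
        exact absurd (by simp [Matrix.one_apply, hij]) h1
      · exact h
    have hi : i ∈ P := by
      simp only [hP, Finset.mem_filter, Finset.mem_univ, true_and]
      refine ⟨s + t, by omega, ?_⟩
      rw [pow_add]
      exact mul_ne_zero_of h1 h2
    have a1 : (B ^ (ℓ + s)) i j ≠ 0 := by
      rw [pow_add]
      refine mul_ne_zero_of (k := i) ?_ h1
      rw [s2 i hi ℓ le_rfl]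
      exact one_ne_zero
    have a2 : (B ^ (t + ℓ)) j i ≠ 0 := by
      rw [pow_add]
      refine mul_ne_zero_of (k := i) h2 ?_
      rw [s2 i hi ℓ le_rfl]
      exact one_ne_zero
    have a3 := two_terms (B := B ^ (ℓ + s)) (C := B ^ (t + ℓ)) (i := i) (j := i) hij
    rw [← pow_add, s2 i hi (ℓ + s) (by omega), s2 i hi (t + ℓ) (by omega)] at a3
    have a4 := s1 (ℓ + s + (t + ℓ)) (by omega) i
    have a5 : 0 < (B ^ (ℓ + s)) i j * (B ^ (t + ℓ)) j i := Nat.mul_pos (by omega) (by omega)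
    omega
  refine ⟨fun i => (Finset.univ.filter (fun k => ∃ s : ℕ, (B ^ s) k i ≠ 0)).card, ?_⟩
  intro i j hij
  by_cases hne : i = j
  · exact Or.inl hne
  · right
    apply Finset.card_lt_card
    rw [Finset.ssubset_iff_of_subset]
    · refine ⟨j, ?_, ?_⟩
      · simp only [Finset.mem_filter, Finset.mem_univ, true_and]
        exact ⟨0, by simp⟩
      · simp only [Finset.mem_filter, Finset.mem_univ, true_and, not_exists, not_not]
        intro s
        by_contra hs
        exact s3 i j hne 1 s (by simpa using hij) hs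
    · intro k hk
      simp only [Finset.mem_filter, Finset.mem_univ, true_and] at hk ⊢
      obtain ⟨s, hs⟩ := hk
      refine ⟨s + 1, ?_⟩
      rw [pow_succ]
      exact mul_ne_zero_of hs hij

theorem final_one {X Y : Mat} (hX : LoopsOnly X) (hY : LoopsOnly Y) :
    ShiftEq X Y ↔ SSEquiv X Y := by
  constructor
  · intro h
    obtain ⟨h1, t1⟩ := hX
    obtain ⟨h2, t2⟩ := hY
    exact conn_fin (main_tri (h := h1) (h' := h2) t1 t2 h)
  · exact SSEquiv.shiftEq

theorem final_two {X Y : Mat} (hX : LoopsOnly X) (hX1 : ∀ i, X.2 i i ≤ 1) (h : ShiftEq X Y) :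
    SSEquiv X Y := by
  obtain ⟨h1, t1⟩ := hX
  obtain ⟨ℓ, hl, R, S, e1, e2, e3, e4⟩ := h
  have ht : ∀ k, ℓ ≤ k → trace (Y.2 ^ k) = ∑ i, X.2 i i := by
    intro k hk
    rw [trace_seq e1 e2 e3 k hk, Matrix.trace]
    apply Finset.sum_congr rfl
    intro i _
    rw [Matrix.diag_apply, tri_diag_pow t1]
    have h0 := hX1 i
    interval_cases X.2 i i
    · exact zero_pow (by omega)
    · exact one_pow _
  obtain ⟨h2, t2⟩ := loops_of_trace hl ht
  exact (final_one ⟨h1, t1⟩ ⟨h2, t2⟩).1 ⟨ℓ, hl, R, S, e1, e2, e3, e4⟩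

end Pool.Agent.H32.SSE
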